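import Pool.Agent.helper37.L5.Spec

/-!
# Row l5:FTG5 (MP_baa4d7_al): toggle on chains of subgroups
-/

set_option autoImplicit false

namespace Pool.Agent.L5

open Pool.Agent.helper58.DC Pool.Agent.DI Pool.Agent.GR Pool.Agent.OB Pool.Agent.DR Pool.Agent.FI Pool.Agent.FI3 Pool.Agent.FI4 Pool.Agent.FI4I Pool.Agent.LE

open Classical in
/-- toggling an element, complex values -/
theorem FTG5_tog (α : Type) [Finite α] (S : Set (Finset α)) (t : Finset α → α) (F : Finset α → ℂ)
    (h : ∀ C ∈ S, ∀ D, (D = insert (t C) C ∨ D = C.erase (t C)) → D ∈ S ∧ t D = t C ∧ F D = F C) :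
    ∑ᶠ C ∈ S, (-1) ^ (C.card + 1) * F C = 0 := by
  have hfin : S.Finite := Set.toFinite S
  rw [finsum_mem_eq_finite_toFinset_sum _ hfin]
  have hmem : ∀ C, C ∈ hfin.toFinset ↔ C ∈ S := fun C => hfin.mem_toFinset
  have hg : ∀ C ∈ S, ((if t C ∈ C then C.erase (t C) else insert (t C) C) ∈ S ∧
      t (if t C ∈ C then C.erase (t C) else insert (t C) C) = t C ∧
      F (if t C ∈ C then C.erase (t C) else insert (t C) C) = F C) := by
    intro C hC
    by_cases htc : t C ∈ C
    · simp only [htc, if_true]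
      exact h C hC _ (Or.inr rfl)
    · simp only [htc, if_false]
      exact h C hC _ (Or.inl rfl)
  refine Finset.sum_involution
    (fun C _ => if t C ∈ C then C.erase (t C) else insert (t C) C) ?_ ?_ ?_ ?_
  · intro C hC
    obtain ⟨-, -, h3⟩ := hg C ((hmem C).1 hC)
    rw [h3]
    by_cases htc : t C ∈ C
    · simp only [htc, if_true]
      have h4 : (C.erase (t C)).card + 1 = C.card := Finset.card_erase_add_one htc
      rw [h4, pow_succ]
      ring
    · simp only [htc, if_false]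
      rw [Finset.card_insert_of_notMem htc, pow_succ (-1 : ℂ) (C.card + 1)]
      ring
  · intro C hC _ heq
    by_cases htc : t C ∈ C
    · simp only [htc, if_true] at heq
      have h4 : t C ∉ C.erase (t C) := Finset.notMem_erase _ _
      rw [heq] at h4
      exact h4 htc
    · simp only [htc, if_false] at heq
      have h4 : t C ∈ insert (t C) C := Finset.mem_insert_self _ _
      rw [heq] at h4
      exact htc h4
  · intro C hC
    exact (hmem _).2 (hg C ((hmem C).1 hC)).1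
  · intro C hC
    obtain ⟨-, h2, -⟩ := hg C ((hmem C).1 hC)
    rw [h2]
    by_cases htc : t C ∈ C
    · simp only [htc, if_true, Finset.notMem_erase, if_false]
      exact Finset.insert_erase htc
    · simp only [htc, if_false, Finset.mem_insert_self, if_true]
      exact Finset.erase_insert htc

/-- `R` is the largest term of `C` which does not contain `Y` -/
def FTG5_top {Γ : Type} [Group Γ] (Y : Subgroup Γ) (C : Finset (Subgroup Γ)) (R : Subgroup Γ) : Prop :=
  R ∈ C ∧ ¬ Y ≤ R ∧ ∀ Q ∈ C, ¬ Y ≤ Q → Q ≤ R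

open Classical in
/-- the element to be toggled -/
noncomputable def FTG5_t {Γ : Type} [Group Γ] (Y : Subgroup Γ) (C : Finset (Subgroup Γ)) : Subgroup Γ :=
  if h : ∃ R, FTG5_top Y C R then h.choose ⊔ Y else ⊥

theorem FTG5_t_eq {Γ : Type} [Group Γ] {Y : Subgroup Γ} {C : Finset (Subgroup Γ)} {R : Subgroup Γ}
    (h : FTG5_top Y C R) : FTG5_t Y C = R ⊔ Y := by
  have h' : ∃ R, FTG5_top Y C R := ⟨R, h⟩
  have h1 : h'.choose = R := by
    have h2 := h'.choose_spec
    exact le_antisymm (h.2.2 _ h2.1 h2.2.1) (h2.2.2 _ h.1 h.2.1)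
  rw [FTG5_t, dif_pos h', h1]

theorem FTG5_nz_sup {Γ : Type} [Group Γ] {R Y : Subgroup Γ} {x : Γ} (h1 : x ∈ nz R) (h2 : x ∈ nz Y) :
    x ∈ nz (R ⊔ Y) := by
  rw [Subgroup.mem_normalizer_iff_map_conj_eq] at h1 h2 ⊢
  rw [Subgroup.map_sup, h1, h2]

theorem FTG5_nrm {Γ : Type} [Group Γ] {C : Finset (Subgroup Γ)} {x : Γ} :
    x ∈ nrm C ↔ ∀ Q ∈ C, x ∈ nz Q := by
  rw [nrm, Subgroup.mem_iInf]
  exact forall_congr' fun Q => Subgroup.mem_iInf

theorem FTG5_main (Γ : Type) [Group Γ] [Finite Γ] (p : ℕ) (L P M Y : Subgroup Γ)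
    (g : Subgroup Γ → ℂ) (hLp : IsPGroup p L) (hYL : Y ≤ L) (hM : M ⊓ nz P ≤ nz Y) (hYP : ¬ Y ≤ P) :
    ∑ᶠ C ∈ {C : Finset (Subgroup Γ) | PCh p L P C}, (-1 : ℂ) ^ (C.card + 1) * g (M ⊓ nrm C) = 0 := by
  classical
  refine FTG5_tog (Subgroup Γ) {C | PCh p L P C} (FTG5_t Y) (fun C => g (M ⊓ nrm C)) ?_
  intro C hC D hD
  have hC : PCh p L P C := hC
  -- the largest term
  obtain ⟨R, hR⟩ : ∃ R, FTG5_top Y C R := by
    have hne : (C.filter fun Q => ¬ Y ≤ Q).Nonempty := ⟨P, Finset.mem_filter.2 ⟨hC.mem, hYP⟩⟩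
    obtain ⟨R, hR⟩ := Finset.exists_maximal hne
    have hR1 := Finset.mem_filter.1 hR.prop
    refine ⟨R, hR1.1, hR1.2, fun Q hQ hQY => ?_⟩
    rcases hC.chain.total hQ hR1.1 with h | h
    · exact h
    · exact hR.le_of_ge (Finset.mem_filter.2 ⟨hQ, hQY⟩) h
  have hPR : P ≤ R := hC.bot R hR.1
  have ht := FTG5_t_eq hR
  set T := R ⊔ Y with hT
  have hYT : Y ≤ T := le_sup_right
  have hRT : R ≤ T := le_sup_left
  have hTR : R ≠ T := fun h => hR.2.1 (h ▸ hYT)
  have hTP : P ≠ T := fun h => hYP (h ▸ hYT)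
  have hTL : T ≤ L := sup_le (hC.le R hR.1) hYL
  have hTp : IsPGroup p T := hLp.to_le hTL
  have hcmp : ∀ Q ∈ C, Q ≤ T ∨ T ≤ Q := by
    intro Q hQ
    by_cases h : Y ≤ Q
    · right
      rcases hC.chain.total hQ hR.1 with h1 | h1
      · exact absurd (h.trans h1) hR.2.1
      · exact sup_le h1 h
    · left
      exact (hR.2.2 Q hQ h).trans hRT
  have hmem : ∀ Q, Q ≠ T → (Q ∈ D ↔ Q ∈ C) := by
    intro Q hQ
    rcases hD with h | h
    · rw [h, Finset.mem_insert, ht]
      exact ⟨fun h => h.resolve_left hQ, Or.inr⟩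
    · rw [h, Finset.mem_erase, ht]
      exact ⟨fun h => h.2, fun h => ⟨hQ, h⟩⟩
  have hRD : FTG5_top Y D R := by
    refine ⟨(hmem R hTR).2 hR.1, hR.2.1, fun Q hQ hQY => hR.2.2 Q ((hmem Q ?_).1 hQ) hQY⟩
    rintro rfl
    exact hQY hYT
  have hDch : PCh p L P D := by
    refine ⟨?_, (hmem P hTP).2 hC.mem, ?_, ?_, ?_⟩
    · intro Q hQ Q' hQ' hne
      have hQ : Q ∈ D := hQ
      have hQ' : Q' ∈ D := hQ'
      by_cases h : Q = T
      · subst h
        exact (hcmp Q' ((hmem Q' (Ne.symm hne)).1 hQ')).symm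
      · by_cases h' : Q' = T
        · subst h'
          exact hcmp Q ((hmem Q h).1 hQ)
        · exact hC.chain.total ((hmem Q h).1 hQ) ((hmem Q' h').1 hQ')
    · intro Q hQ
      by_cases h : Q = T
      · subst h
        exact hPR.trans hRT
      · exact hC.bot Q ((hmem Q h).1 hQ)
    · intro Q hQ
      by_cases h : Q = T
      · subst h
        exact hTL
      · exact hC.le Q ((hmem Q h).1 hQ)
    · intro Q hQ
      by_cases h : Q = T
      · subst h
        exact hTp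
      · exact hC.pg Q ((hmem Q h).1 hQ)
  refine ⟨hDch, (FTG5_t_eq hRD).trans ht.symm, ?_⟩
  -- normalisers
  have key : ∀ E : Finset (Subgroup Γ), P ∈ E → R ∈ E → ∀ x ∈ M,
      (∀ Q ∈ E, Q ≠ T → x ∈ nz Q) → x ∈ nz T := by
    intro E hP hR x hx h
    exact FTG5_nz_sup (h R hR hTR) (hM ⟨hx, h P hP hTP⟩)
  have heq : M ⊓ nrm D = M ⊓ nrm C := by
    ext x
    rw [Subgroup.mem_inf, Subgroup.mem_inf, FTG5_nrm, FTG5_nrm]
    refine and_congr_right fun hx => ⟨fun h Q hQ => ?_, fun h Q hQ => ?_⟩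
    · by_cases h' : Q = T
      · subst h'
        exact key D ((hmem P hTP).2 hC.mem) hRD.1 x hx fun Q hQ _ => h Q hQ
      · exact h Q ((hmem Q h').2 hQ)
    · by_cases h' : Q = T
      · subst h'
        exact key C hC.mem hR.1 x hx fun Q hQ _ => h Q hQ
      · exact h Q ((hmem Q h').1 hQ)
  show g (M ⊓ nrm D) = g (M ⊓ nrm C)
  rw [heq]

open Classical in
theorem FTG5 : FTG5_stmt := by
  intro Γ _ _ p _ D T Z E hp hcom hZD hED hEZ hTE hTZ f
  have h0 := FTG5_main Γ p D Z T E f hp hED (inf_le_left.trans hTE) hEZ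
  have hfin : ∀ S : Set (Finset (Subgroup Γ)), S.Finite := fun S => Set.toFinite S
  have hone : PCh p D Z ({Z} : Finset (Subgroup Γ)) := by
    refine ⟨?_, ?_, ?_, ?_, ?_⟩
    · rw [Finset.coe_singleton]
      exact Set.pairwise_singleton _ _
    · simp
    · intro Q hQ
      rw [Finset.mem_singleton] at hQ
      rw [hQ]
    · intro Q hQ
      rw [Finset.mem_singleton] at hQ
      rw [hQ]
      exact hZD
    · intro Q hQ
      rw [Finset.mem_singleton] at hQ
      rw [hQ]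
      exact hp.to_le hZD
  have hset : {C : Finset (Subgroup Γ) | PCh p D Z C} = insert ({Z} : Finset (Subgroup Γ))
      {C : Finset (Subgroup Γ) | PCh p D Z C ∧ C ≠ {Z}} := by
    ext C
    simp only [Set.mem_insert_iff, Set.mem_ofPred_eq]
    constructor
    · intro h1
      by_cases h3 : C = {Z}
      · exact Or.inl h3
      · exact Or.inr ⟨h1, h3⟩
    · rintro (rfl | ⟨h1, -⟩)
      · exact hone
      · exact h1
  have hnot : ({Z} : Finset (Subgroup Γ)) ∉ {C : Finset (Subgroup Γ) | PCh p D Z C ∧ C ≠ {Z}} := fun h => h.2 rfl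
  rw [hset, finsum_mem_insert _ hnot (hfin _)] at h0
  have hT2 : T ⊓ nrm ({Z} : Finset (Subgroup Γ)) = T := by
    apply inf_eq_left.2
    intro x hx
    rw [FTG5_nrm]
    intro Q hQ
    rw [Finset.mem_singleton] at hQ
    rw [hQ]
    exact hTZ hx
  rw [Finset.card_singleton, hT2] at h0
  have h1 : ((-1 : ℂ)) ^ (1 + 1) * f T = f T := by ring
  rw [h1] at h0
  exact eq_neg_of_add_eq_zero_right h0

end Pool.Agent.L5
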